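import Pool.Agent.Lib.MP_3145b1_co.F.Fin
import Pool.Agent.Lib.MP_3145b1_co.F.Sc
import Pool.Agent.Lib.MP_3145b1_co.F.Step
import Pool.Agent.Lib.MP_3145b1_co.Jen

/-!
# MP_3145b1_co: an entropy-influence inequality for arbitrary decision trees
-/

set_option autoImplicit false

namespace Pool.Agent.MP3145b1.T

open Finset Pool.Agent.MP3145b1 Pool.Agent.MP3145b1.F

/-- Decision trees over `n` variables; the leaves carry no label. `node i T0 T1` queries the
variable `i` and continues with `T0` if its value is `false`, with `T1` if it is `true`. -/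
inductive DTree (n : ℕ) : Type
  | leaf : DTree n
  | node : Fin n → DTree n → DTree n → DTree n

variable {n : ℕ}

/-- The restriction `x_i = b` of `f` (a function on the whole cube). -/
def restr (i : Fin n) (b : Bool) (f : (Fin n → Bool) → ℝ) : (Fin n → Bool) → ℝ :=
  fun x => f (Function.update x i b)

/-- The restriction of `f` to the subcube of the leaf of `T` which the input `x` reaches (a
function on the whole cube). -/
def leafFn : DTree n → (Fin n → Bool) → ((Fin n → Bool) → ℝ) → ((Fin n → Bool) → ℝ)
  | .leaf, _, f => f
  | .node i T0 T1, x, f =>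
      if x i = true then leafFn T1 x (restr i true f) else leafFn T0 x (restr i false f)

/-- The number of queries of `T` on the input `x`. -/
def queries : DTree n → (Fin n → Bool) → ℕ
  | .leaf, _ => 0
  | .node i T0 T1, x => 1 + (if x i = true then queries T1 x else queries T0 x)

/-- Mean over the uniform distribution on the cube. -/
noncomputable def mean (φ : (Fin n → Bool) → ℝ) : ℝ := (∑ x, φ x) / 2 ^ n

/-! ### Sums over the cube -/

theorem sum_upd (i : Fin n) (G : (Fin n → Bool) → ℝ) :
    ∑ x : Fin n → Bool, (G (Function.update x i false) + G (Function.update x i true)) =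
      2 * ∑ x, G x := by
  have h1 : ∀ x : Fin n → Bool, G (Function.update x i false) + G (Function.update x i true) =
      G x + G (Function.update x i (!x i)) := by
    intro x
    cases hx : x i
    · have h2 : Function.update x i false = x := by rw [← hx, Function.update_eq_self]
      rw [h2]
      rfl
    · have h2 : Function.update x i true = x := by rw [← hx, Function.update_eq_self]
      rw [h2, add_comm]
      rfl
  have h3 : Function.Involutive (fun x : Fin n → Bool => Function.update x i (!x i)) := by
    intro x
    simp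
  have h4 : ∑ x : Fin n → Bool, G (Function.update x i (!x i)) = ∑ x, G x :=
    Equiv.sum_comp h3.toPerm G
  rw [Finset.sum_congr rfl fun x _ => h1 x, Finset.sum_add_distrib, h4]
  ring

/-- The point `x`, overwritten by `ρ` on `F`. -/
def mix (F : Finset (Fin n)) (ρ x : Fin n → Bool) : Fin n → Bool :=
  fun j => if j ∈ F then ρ j else x j

theorem mix_upd (F : Finset (Fin n)) (ρ x : Fin n → Bool) (i : Fin n) (b : Bool) (hi : i ∉ F) :
    mix F ρ (Function.update x i b) = mix (insert i F) (Function.update ρ i b) x := by
  funext j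
  unfold mix
  by_cases hj : j = i
  · subst hj
    simp [hi]
  · simp [hj, Function.update_of_ne]

theorem restr_indep (i : Fin n) (b : Bool) (f : (Fin n → Bool) → ℝ) (x : Fin n → Bool) (c : Bool) :
    restr i b f (Function.update x i c) = restr i b f x := by
  unfold restr
  rw [Function.update_idem]

/-- General induction over a decision tree. -/
theorem tree_ind (φ : ((Fin n → Bool) → ℝ) → ℝ) (c : ℝ) (hc : 0 ≤ c)
    (hφ : ∀ (g : (Fin n → Bool) → ℝ) (i : Fin n), (∀ x, g x = 1 ∨ g x = -1) →
      φ g ≤ (φ (restr i false g) + φ (restr i true g)) / 2 + c) (T : DTree n) :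
    ∀ (f : (Fin n → Bool) → ℝ) (F : Finset (Fin n)) (ρ : Fin n → Bool),
      (∀ x, f x = 1 ∨ f x = -1) → (∀ i ∈ F, ∀ x b, f (Function.update x i b) = f x) →
      φ f * 2 ^ n ≤ ∑ x, (φ (leafFn T (mix F ρ x) f) + c * queries T (mix F ρ x)) := by
  induction T with
  | leaf =>
    intro f F ρ _ _
    simp only [leafFn, queries, Nat.cast_zero, mul_zero, add_zero, Finset.sum_const,
      Finset.card_univ, Fintype.card_pi, Fintype.card_bool, Finset.prod_const,
      Fintype.card_fin, nsmul_eq_mul]
    push_cast
    linarith
  | node i T0 T1 ih0 ih1 =>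
    intro f F ρ hf hF
    by_cases hi : i ∈ F
    · have hmi : ∀ x, mix F ρ x i = ρ i := by
        intro x
        unfold mix
        rw [if_pos hi]
      have hr : ∀ b, restr i b f = f := by
        intro b
        funext x
        exact hF i hi x b
      cases hb : ρ i
      · refine (ih0 f F ρ hf hF).trans ?_
        apply Finset.sum_le_sum
        intro x _
        have h1 := hmi x
        rw [hb] at h1
        simp only [leafFn, queries, h1, hr, Bool.false_eq_true, if_false]
        push_cast
        nlinarith
      · refine (ih1 f F ρ hf hF).trans ?_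
        apply Finset.sum_le_sum
        intro x _
        have h1 := hmi x
        rw [hb] at h1
        simp only [leafFn, queries, h1, hr, if_true]
        push_cast
        nlinarith
    · have hrb : ∀ b x, restr i b f x = 1 ∨ restr i b f x = -1 := fun b x => hf _
      have hrF : ∀ b, ∀ j ∈ insert i F, ∀ x b', restr i b f (Function.update x j b') =
          restr i b f x := by
        intro b j hj x b'
        by_cases hji : j = i
        · rw [hji]
          exact restr_indep i b f x b'
        · have hjF : j ∈ F := (Finset.mem_insert.mp hj).resolve_left hji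
          unfold restr
          rw [Function.update_comm hji]
          exact hF j hjF _ _
      have h0 := ih0 (restr i false f) (insert i F) (Function.update ρ i false) (hrb false)
        (hrF false)
      have h1 := ih1 (restr i true f) (insert i F) (Function.update ρ i true) (hrb true)
        (hrF true)
      have hs := hφ f i hf
      have hmi : ∀ b x, mix (insert i F) (Function.update ρ i b) x i = b := by
        intro b x
        unfold mix
        rw [if_pos (Finset.mem_insert_self _ _), Function.update_self]
      have e := sum_upd i (fun x => φ (leafFn (DTree.node i T0 T1) (mix F ρ x) f) +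
        c * queries (DTree.node i T0 T1) (mix F ρ x))
      rw [Finset.sum_add_distrib] at e
      have e0 : ∑ x, (φ (leafFn (DTree.node i T0 T1) (mix F ρ (Function.update x i false)) f) +
          c * queries (DTree.node i T0 T1) (mix F ρ (Function.update x i false))) =
          ∑ x, (φ (leafFn T0 (mix (insert i F) (Function.update ρ i false) x) (restr i false f)) +
            c * queries T0 (mix (insert i F) (Function.update ρ i false) x)) + c * 2 ^ n := by
        have hconst : c * 2 ^ n = ∑ _x : Fin n → Bool, c := by
          simp only [Finset.sum_const, Finset.card_univ, Fintype.card_pi, Fintype.card_bool,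
            Finset.prod_const, Fintype.card_fin, nsmul_eq_mul]
          push_cast
          ring
        rw [hconst, ← Finset.sum_add_distrib]
        apply Finset.sum_congr rfl
        intro x _
        rw [mix_upd F ρ x i false hi]
        simp only [leafFn, queries, hmi, Bool.false_eq_true, if_false]
        push_cast
        ring
      have e1 : ∑ x, (φ (leafFn (DTree.node i T0 T1) (mix F ρ (Function.update x i true)) f) +
          c * queries (DTree.node i T0 T1) (mix F ρ (Function.update x i true))) =
          ∑ x, (φ (leafFn T1 (mix (insert i F) (Function.update ρ i true) x) (restr i true f)) +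
            c * queries T1 (mix (insert i F) (Function.update ρ i true) x)) + c * 2 ^ n := by
        have hconst : c * 2 ^ n = ∑ _x : Fin n → Bool, c := by
          simp only [Finset.sum_const, Finset.card_univ, Fintype.card_pi, Fintype.card_bool,
            Finset.prod_const, Fintype.card_fin, nsmul_eq_mul]
          push_cast
          ring
        rw [hconst, ← Finset.sum_add_distrib]
        apply Finset.sum_congr rfl
        intro x _
        rw [mix_upd F ρ x i true hi]
        simp only [leafFn, queries, hmi, if_true]
        push_cast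
        ring
      rw [e0, e1] at e
      have h2n : (0 : ℝ) < 2 ^ n := by positivity
      nlinarith [mul_le_mul_of_nonneg_right hs h2n.le]

/-- The same for the mean. -/
theorem tree_mean (φ : ((Fin n → Bool) → ℝ) → ℝ) (c : ℝ) (hc : 0 ≤ c)
    (hφ : ∀ (g : (Fin n → Bool) → ℝ) (i : Fin n), (∀ x, g x = 1 ∨ g x = -1) →
      φ g ≤ (φ (restr i false g) + φ (restr i true g)) / 2 + c) (T : DTree n)
    (f : (Fin n → Bool) → ℝ) (hf : ∀ x, f x = 1 ∨ f x = -1) :
    φ f ≤ mean (fun x => φ (leafFn T x f)) + c * mean (fun x => (queries T x : ℝ)) := by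
  have h1 := tree_ind φ c hc hφ T f ∅ (fun _ => false) hf (by simp)
  have h2 : ∀ x : Fin n → Bool, mix ∅ (fun _ => false) x = x := by
    intro x
    funext j
    simp [mix]
  simp only [h2] at h1
  unfold mean
  rw [Finset.sum_add_distrib, ← Finset.mul_sum] at h1
  have h2n : (0 : ℝ) < 2 ^ n := by positivity
  rw [← mul_div_assoc, ← add_div, le_div_iff₀ h2n]
  exact h1

/-! ### One step -/

theorem org_erase (v : Fin n) (A : Finset (Fin n)) :
    cubeEquiv org (A.erase v) = Function.update (cubeEquiv org A) v false := by
  funext j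
  by_cases hj : j = v
  · subst hj
    simp [cubeEquiv, org]
  · simp [cubeEquiv, org, hj]

theorem org_insert (v : Fin n) (A : Finset (Fin n)) :
    cubeEquiv org (insert v A) = Function.update (cubeEquiv org A) v true := by
  funext j
  by_cases hj : j = v
  · subst hj
    simp [cubeEquiv, org]
  · simp [cubeEquiv, org, hj]

theorem org_r0 (v : Fin n) (f : (Fin n → Bool) → ℝ) :
    r0 v (fun A => f (cubeEquiv org A)) = fun A => restr v false f (cubeEquiv org A) := by
  funext A
  unfold r0 restr
  simp only [org_erase]

theorem org_r1 (v : Fin n) (f : (Fin n → Bool) → ℝ) :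
    r1 v (fun A => f (cubeEquiv org A)) = fun A => restr v true f (cubeEquiv org A) := by
  funext A
  unfold r1 restr
  simp only [org_insert]

/-- Jensen: the cost of a variable. -/
theorem cost_le (v : Fin n) (f : Finset (Fin n) → ℝ) (hf : ∀ A, f A = 1 ∨ f A = -1) :
    ∃ D : ℝ, D = ∑ S : Finset (Fin n), fc (df v f) S ^ 2 ∧ 0 ≤ D ∧ D ≤ 1 ∧
      Cv v f ≤ D * Real.log (1 / D) := by
  have hmn : (1 / 2 : ℝ) ^ n * ∑ _A : Finset (Fin n), (1 : ℝ) = 1 := by
    rw [Finset.sum_const, Finset.card_univ, Fintype.card_finset, Fintype.card_fin, nsmul_eq_mul,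
      mul_one]
    push_cast
    rw [← mul_pow]
    norm_num
  have hsum : ∑ S : Finset (Fin n), fc (av v f) S ^ 2 + ∑ S : Finset (Fin n), fc (df v f) S ^ 2 =
      1 := by
    rw [par n (av v f), par n (df v f), ← mul_add, ← Finset.sum_add_distrib]
    refine Eq.trans ?_ hmn
    congr 1
    apply Finset.sum_congr rfl
    intro A _
    unfold av df
    rcases hf (A.erase v) with h1 | h1 <;> rcases hf (insert v A) with h2 | h2 <;>
      rw [h1, h2] <;> norm_num
  have ha : 0 ≤ ∑ S : Finset (Fin n), fc (av v f) S ^ 2 := Finset.sum_nonneg fun _ _ => sq_nonneg _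
  have hd : 0 ≤ ∑ S : Finset (Fin n), fc (df v f) S ^ 2 := Finset.sum_nonneg fun _ _ => sq_nonneg _
  refine ⟨_, rfl, hd, by linarith, ?_⟩
  set D : ℝ := ∑ S : Finset (Fin n), fc (df v f) S ^ 2 with hD
  rcases hd.eq_or_lt with h0 | hpos
  · have h2 : ∀ S : Finset (Fin n), fc (df v f) S ^ 2 = 0 := by
      intro S
      exact (Finset.sum_eq_zero_iff_of_nonneg (fun S _ => sq_nonneg (fc (df v f) S))).mp
        (hD.symm.trans h0.symm) S (Finset.mem_univ _)
    rw [← h0]
    unfold Cv
    simp [h2]
  · have h2 := Pool.Agent.MP3145b1.jen (Finset (Fin n)) (fun S => fc (df v f) S ^ 2 / D)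
      (fun S => 1 + fc (av v f) S ^ 2 / fc (df v f) S ^ 2) (fun S => by positivity)
      (by rw [← Finset.sum_div]; exact div_self hpos.ne') (fun S => by positivity)
    have h3 : ∑ S : Finset (Fin n), fc (df v f) S ^ 2 / D *
        (1 + fc (av v f) S ^ 2 / fc (df v f) S ^ 2) ≤ 1 / D := by
      have h4 : ∀ S : Finset (Fin n), fc (df v f) S ^ 2 / D *
          (1 + fc (av v f) S ^ 2 / fc (df v f) S ^ 2) ≤
            fc (df v f) S ^ 2 / D + fc (av v f) S ^ 2 / D := by
        intro S
        by_cases hb : fc (df v f) S = 0
        · rw [hb]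
          have : 0 ≤ fc (av v f) S ^ 2 / D := by positivity
          simpa using this
        · have hb2 : fc (df v f) S ^ 2 ≠ 0 := pow_ne_zero 2 hb
          apply le_of_eq
          field_simp
      refine (Finset.sum_le_sum fun S _ => h4 S).trans ?_
      rw [Finset.sum_add_distrib, ← Finset.sum_div, ← Finset.sum_div, ← add_div]
      apply le_of_eq
      rw [add_comm, hsum]
    have hs0 : 0 < ∑ S : Finset (Fin n), fc (df v f) S ^ 2 / D *
        (1 + fc (av v f) S ^ 2 / fc (df v f) S ^ 2) := by
      have h5 : (1 : ℝ) = ∑ S : Finset (Fin n), fc (df v f) S ^ 2 / D := by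
        rw [← Finset.sum_div]
        exact (div_self hpos.ne').symm
      refine lt_of_lt_of_le one_pos ?_
      rw [h5]
      apply Finset.sum_le_sum
      intro S _
      have h6 : 0 ≤ fc (df v f) S ^ 2 / D := by positivity
      have h7 : 0 ≤ fc (av v f) S ^ 2 / fc (df v f) S ^ 2 := by positivity
      nlinarith [mul_nonneg h6 h7]
    have h5 : Cv v f = D * ∑ S : Finset (Fin n), fc (df v f) S ^ 2 / D *
        Real.log (1 + fc (av v f) S ^ 2 / fc (df v f) S ^ 2) := by
      unfold Cv
      rw [Finset.mul_sum]
      apply Finset.sum_congr rfl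
      intro S _
      field_simp
    rw [h5]
    apply mul_le_mul_of_nonneg_left _ hd
    exact h2.trans (Real.log_le_log hs0 h3)

/-- The tangent lines of `D log (1/D)`. -/
theorem tangent (D y : ℝ) (hD : 0 ≤ D) :
    D * Real.log (1 / D) ≤ (y - 1) * D + Real.exp (-y) := by
  rcases hD.eq_or_lt with h0 | hp
  · rw [← h0]
    simp [Real.exp_nonneg]
  · have h1 := Real.log_le_sub_one_of_pos (show 0 < Real.exp (-y) / D by positivity)
    rw [Real.log_div (Real.exp_pos _).ne' hp.ne', Real.log_exp] at h1
    rw [one_div, Real.log_inv]
    have h2 := mul_le_mul_of_nonneg_left h1 hD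
    have h3 : D * (Real.exp (-y) / D - 1) = Real.exp (-y) - D := by
      field_simp
    rw [h3] at h2
    linarith

/-- One step, for functions on `Fin n → Bool`; entropy in nats. -/
theorem one_step (f : (Fin n → Bool) → ℝ) (hf : ∀ x, f x = 1 ∨ f x = -1) (i : Fin n) :
    ∃ D : ℝ, 0 ≤ D ∧ D ≤ 1 ∧
      influence f = (influence (restr i false f) + influence (restr i true f)) / 2 + D ∧
      ∀ y : ℝ, specEntropy f * Real.log 2 ≤ (specEntropy (restr i false f) * Real.log 2 +
        specEntropy (restr i true f) * Real.log 2) / 2 + (4 + y) * D + Real.exp (-y) := by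
  have hl : Real.log 2 ≠ 0 := (Real.log_pos (by norm_num)).ne'
  obtain ⟨D, hD, h0, h1, h2⟩ := cost_le i (fun A => f (cubeEquiv org A)) (fun A => hf _)
  obtain ⟨h3, h4⟩ := step sc n i (fun A => f (cubeEquiv org A))
  refine ⟨D, h0, h1, ?_, ?_⟩
  · rw [influence_eq org f, influence_eq org (restr i false f), influence_eq org (restr i true f),
      h4, ← org_r0, ← org_r1, hD]
  · intro y
    rw [fin_entropy f, fin_entropy (restr i false f), fin_entropy (restr i true f),
      div_mul_cancel₀ _ hl, div_mul_cancel₀ _ hl, div_mul_cancel₀ _ hl, ← org_r0, ← org_r1]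
    have h5 := tangent D y h0
    rw [← hD] at h3
    nlinarith

theorem const_zero (f : (Fin n → Bool) → ℝ) (c : ℝ) (hc : c = 1 ∨ c = -1) (hf : ∀ x, f x = c) :
    specEntropy f = 0 ∧ influence f = 0 := by
  have hc2 : c ^ 2 = 1 := by rcases hc with rfl | rfl <;> norm_num
  have h0 : coeff f ∅ = c := by
    unfold coeff
    simp only [hf, Finset.prod_empty, mul_one, Finset.sum_const, Finset.card_univ,
      Fintype.card_pi, Fintype.card_bool, Finset.prod_const, Fintype.card_fin, nsmul_eq_mul]
    push_cast
    field_simp
  have h1 : ∑ S : Finset (Fin n), coeff f S ^ 2 = 1 :=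
    coeff_parseval par f (fun x => by rw [hf x]; exact hc)
  have h3 : ∑ S ∈ (univ : Finset (Finset (Fin n))).erase ∅, coeff f S ^ 2 = 0 := by
    have := Finset.add_sum_erase univ (fun S => coeff f S ^ 2) (Finset.mem_univ (∅ : Finset (Fin n)))
    simp only [h0, hc2] at this
    linarith
  have h4 : ∀ S : Finset (Fin n), S ≠ ∅ → coeff f S ^ 2 = 0 := by
    intro S hS
    exact (Finset.sum_eq_zero_iff_of_nonneg (fun T _ => sq_nonneg (coeff f T))).1 h3 S
      (Finset.mem_erase.2 ⟨hS, Finset.mem_univ _⟩)
  constructor
  · unfold specEntropy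
    refine Finset.sum_eq_zero fun S _ => ?_
    by_cases hS : S = ∅
    · rw [hS, h0, hc2]
      simp
    · rw [h4 S hS, zero_mul]
  · unfold influence
    refine Finset.sum_eq_zero fun S _ => ?_
    by_cases hS : S = ∅
    · rw [hS]
      simp
    · rw [h4 S hS, mul_zero]

/-- The main inequality. -/
theorem tree_main (f : (Fin n → Bool) → ℝ) (hf : ∀ x, f x = 1 ∨ f x = -1) (T : DTree n)
    (Δ J : ℝ) (hΔ : Δ = mean (fun x => (queries T x : ℝ)))
    (hJ : J = influence f - mean (fun x => influence (leafFn T x f))) :
    0 ≤ J ∧ J ≤ Δ ∧ specEntropy f ≤ mean (fun x => specEntropy (leafFn T x f)) +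
      J * (8 + Real.logb 2 (Δ / J)) := by
  have hl : 0 < Real.log 2 := Real.log_pos (by norm_num)
  have hlin : ∀ (a : ℝ) (φ : (Fin n → Bool) → ℝ), mean (fun x => a * φ x) = a * mean φ := by
    intro a φ
    unfold mean
    rw [← Finset.mul_sum, mul_div_assoc]
  have hadd : ∀ φ ψ : (Fin n → Bool) → ℝ, mean (fun x => φ x + ψ x) = mean φ + mean ψ := by
    intro φ ψ
    unfold mean
    rw [Finset.sum_add_distrib, add_div]
  have h1 : 0 ≤ J := by
    have h := tree_mean (fun g => (-1) * influence g) 0 le_rfl (by
      intro g i hg
      obtain ⟨D, hD0, _, hD, _⟩ := one_step g hg i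
      rw [hD]
      linarith) T f hf
    rw [hlin] at h
    linarith
  have h2 : J ≤ Δ := by
    have h := tree_mean (fun g => influence g) 1 zero_le_one (by
      intro g i hg
      obtain ⟨D, _, hD1, hD, _⟩ := one_step g hg i
      rw [hD]
      linarith) T f hf
    linarith
  have h3 : ∀ y : ℝ, specEntropy f * Real.log 2 ≤
      mean (fun x => specEntropy (leafFn T x f)) * Real.log 2 + (4 + y) * J +
        Real.exp (-y) * Δ := by
    intro y
    have h := tree_mean (fun g => Real.log 2 * specEntropy g + (-(4 + y)) * influence g)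
      (Real.exp (-y)) (Real.exp_pos _).le (by
        intro g i hg
        obtain ⟨D, _, _, hD, hD2⟩ := one_step g hg i
        have := hD2 y
        rw [hD]
        linarith) T f hf
    rw [hadd, hlin, hlin] at h
    rw [hΔ, hJ]
    linarith
  refine ⟨h1, h2, ?_⟩
  rcases h1.eq_or_lt with h0 | hp
  · rw [← h0, zero_mul, add_zero]
    have h4 : specEntropy f * Real.log 2 ≤
        mean (fun x => specEntropy (leafFn T x f)) * Real.log 2 := by
      apply le_of_forall_pos_le_add
      intro ε hε
      have hΔ0 : 0 ≤ Δ := h1.trans h2
      have h5 := h3 (-Real.log (ε / (Δ + 1)))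
      rw [← h0, mul_zero, add_zero, neg_neg, Real.exp_log (by positivity)] at h5
      have h6 : ε / (Δ + 1) * Δ ≤ ε := by
        rw [div_mul_eq_mul_div, div_le_iff₀ (by linarith)]
        nlinarith
      linarith
    exact le_of_mul_le_mul_right h4 hl
  · have hΔp : 0 < Δ := lt_of_lt_of_le hp h2
    have h5 := h3 (Real.log (Δ / J))
    rw [Real.exp_neg, Real.exp_log (by positivity)] at h5
    have h6 : (Δ / J)⁻¹ * Δ = J := by
      field_simp
    rw [h6] at h5
    have h7 : J * (8 + Real.logb 2 (Δ / J)) * Real.log 2 =
        8 * Real.log 2 * J + J * Real.log (Δ / J) := by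
      unfold Real.logb
      field_simp
    have h8 : 5 ≤ 8 * Real.log 2 := by
      have := Real.log_two_gt_d9
      linarith
    have h9 : specEntropy f * Real.log 2 ≤ (mean (fun x => specEntropy (leafFn T x f)) +
        J * (8 + Real.logb 2 (Δ / J))) * Real.log 2 := by
      rw [add_mul, h7]
      nlinarith [mul_le_mul_of_nonneg_right h8 h1]
    exact le_of_mul_le_mul_right h9 hl

end Pool.Agent.MP3145b1.T
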